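import Pool.Agent.Q203.AsymptoticLimit
import Pool.Agent.Q203.EssSpec

/-!
# If the essential spectrum of an `L`-asymptotic limit is `{t}` with `t > 0`, then `t = 1`
-/

set_option autoImplicit false

namespace Pool.Agent.Results.MP_fdf6c3_an.EssentialOne

open Filter Topology Pool.Agent.Q203.AsymptoticLimit Pool.Agent.Q203.EssSpec
open scoped BoundedContinuousFunction InnerProductSpace

variable {H : Type*} [NormedAddCommGroup H] [InnerProductSpace ℂ H] [CompleteSpace H]

omit [CompleteSpace H] in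
theorem compact_estimate (K : H →L[ℂ] H) (hK : IsCompactOperator K) (M : ℝ) (hM : 0 ≤ M)
    (ε : ℝ) (hε : 0 < ε) :
    ∃ U : Finset H, ∀ z : H, ‖z‖ ≤ M →
      ‖inner ℂ z (K z)‖ ≤ ε * (M + 1) + (1 / ε) * ∑ u ∈ U, ‖inner ℂ u z‖ ^ 2 := by
  have hc : IsCompact (closure (K '' Metric.closedBall 0 M)) :=
    hK.isCompact_closure_image_closedBall M
  obtain ⟨U, hUf, hU⟩ := Metric.totallyBounded_iff.mp hc.totallyBounded ε hε
  refine ⟨hUf.toFinset, fun z hz => ?_⟩
  have hz2 : K z ∈ ⋃ y ∈ U, Metric.ball y ε := by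
    apply hU
    apply subset_closure
    exact ⟨z, by simpa using hz, rfl⟩
  simp only [Set.mem_iUnion, Metric.mem_ball, dist_eq_norm] at hz2
  obtain ⟨u, hu, hlt⟩ := hz2
  have h1 : ‖inner ℂ z (K z)‖ ≤ ‖inner ℂ u z‖ + ε * M := by
    have e1 : inner ℂ z (K z) = inner ℂ z u + inner ℂ z (K z - u) := by
      rw [inner_sub_right]; ring
    rw [e1]
    refine le_trans (norm_add_le _ _) ?_
    rw [norm_inner_symm z u]
    gcongr
    refine le_trans (norm_inner_le_norm _ _) ?_
    calc ‖z‖ * ‖K z - u‖ ≤ M * ε := by gcongr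
      _ = ε * M := mul_comm _ _
  have h2 : ‖inner ℂ u z‖ ≤ ε + (1 / ε) * ‖inner ℂ u z‖ ^ 2 := by
    set a := ‖inner ℂ u z‖ with ha
    have ha0 : 0 ≤ a := norm_nonneg _
    rw [one_div_mul_eq_div, ← sub_le_iff_le_add', le_div_iff₀ hε]
    nlinarith [sq_nonneg (a - ε)]
  have h3 : ‖inner ℂ u z‖ ^ 2 ≤ ∑ u ∈ hUf.toFinset, ‖inner ℂ u z‖ ^ 2 :=
    Finset.single_le_sum (f := fun u : H => ‖inner ℂ u z‖ ^ 2) (fun _ _ => by positivity)
      (hUf.mem_toFinset.mpr hu)
  have h4 : (1 / ε) * ‖inner ℂ u z‖ ^ 2 ≤ (1 / ε) * ∑ u ∈ hUf.toFinset, ‖inner ℂ u z‖ ^ 2 := by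
    gcongr
  linarith

/-- The sequence `‖⟨u, T^n x⟩‖²`. -/
noncomputable def innSeq (T : H →L[ℂ] H) (M : ℝ) (hM : ∀ n : ℕ, ‖T ^ n‖ ≤ M) (u x : H) :
    ℕ →ᵇ ℝ :=
  BoundedContinuousFunction.ofNormedAddCommGroupDiscrete (fun n => ‖inner ℂ u ((T ^ n) x)‖ ^ 2)
    ((‖u‖ * (M * ‖x‖)) ^ 2) (fun n => by
      rw [Real.norm_eq_abs, abs_of_nonneg (by positivity)]
      have h1 := norm_pow_le hM n x
      have h2 : ‖inner ℂ u ((T ^ n) x)‖ ≤ ‖u‖ * (M * ‖x‖) :=
        le_trans (norm_inner_le_norm _ _) (by gcongr)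
      gcongr)

omit [CompleteSpace H] in
theorem innSeq_apply (T : H →L[ℂ] H) (M : ℝ) (hM : ∀ n : ℕ, ‖T ^ n‖ ≤ M) (u x : H) (n : ℕ) :
    innSeq T M hM u x n = ‖inner ℂ u ((T ^ n) x)‖ ^ 2 := rfl

theorem bessel_pow (T : H →L[ℂ] H) (M : ℝ) (hM : ∀ n : ℕ, ‖T ^ n‖ ≤ M) (f : ℕ → H)
    (hf : Orthonormal ℂ f) (u : H) (n N : ℕ) :
    ∑ i ∈ Finset.range N, ‖inner ℂ u ((T ^ n) (f i))‖ ^ 2 ≤ (M * ‖u‖) ^ 2 := by
  have h1 : ∀ i, ‖inner ℂ u ((T ^ n) (f i))‖ =
      ‖inner ℂ (f i) ((ContinuousLinearMap.adjoint (T ^ n)) u)‖ := by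
    intro i
    rw [ContinuousLinearMap.adjoint_inner_right, norm_inner_symm]
  simp only [h1]
  refine le_trans (hf.sum_inner_products_le _) ?_
  have h2 : ‖(ContinuousLinearMap.adjoint (T ^ n)) u‖ ≤ M * ‖u‖ := by
    refine le_trans (ContinuousLinearMap.le_opNorm _ _) ?_
    rw [LinearIsometryEquiv.norm_map]
    gcongr
    exact hM n
  gcongr

theorem tendsto_innSeq (L : BanachLimit) (T : H →L[ℂ] H) (M : ℝ) (hM : ∀ n : ℕ, ‖T ^ n‖ ≤ M)
    (f : ℕ → H) (hf : Orthonormal ℂ f) (u : H) :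
    Tendsto (fun i => L.real (innSeq T M hM u (f i))) atTop (𝓝 0) := by
  have hs : Summable (fun i => L.real (innSeq T M hM u (f i))) := by
    apply summable_of_sum_range_le (c := (M * ‖u‖) ^ 2)
    · intro i
      apply real_nonneg
      intro n
      rw [innSeq_apply]
      positivity
    · intro N
      rw [← map_sum]
      apply real_le_of_le
      intro n
      rw [BoundedContinuousFunction.coe_sum, Finset.sum_apply]
      simp only [innSeq_apply]
      exact bessel_pow T M hM f hf u n N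
  exact hs.tendsto_atTop_zero

theorem tendsto_innSeq_zero (T : H →L[ℂ] H) (M : ℝ) (hM : ∀ n : ℕ, ‖T ^ n‖ ≤ M)
    (f : ℕ → H) (hf : Orthonormal ℂ f) (u : H) :
    Tendsto (fun i => innSeq T M hM u (f i) 0) atTop (𝓝 0) := by
  have hs : Summable (fun i => innSeq T M hM u (f i) 0) := by
    apply summable_of_sum_range_le (c := (M * ‖u‖) ^ 2)
    · intro i
      rw [innSeq_apply]
      positivity
    · intro N
      simp only [innSeq_apply]
      exact bessel_pow T M hM f hf u 0 N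
  exact hs.tendsto_atTop_zero

/-- Let `H` be an infinite-dimensional complex Hilbert space. If the `L`-asymptotic limit `A` of a
power bounded operator has essential spectrum `{t}` with `t > 0`, then `t = 1`. -/
theorem result (H : Type*) [NormedAddCommGroup H] [InnerProductSpace ℂ H] [CompleteSpace H]
    (hdim : ¬ FiniteDimensional ℂ H) (L : BanachLimit) (T A : H →L[ℂ] H)
    (hT : PowerBounded T) (hA : IsAsymptoticLimit L T A) (t : ℝ) (ht : 0 < t)
    (hess : essSpectrum A = {(t : ℂ)}) : t = 1 := by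
  obtain ⟨M₀, hM₀⟩ := hT
  set M := max M₀ 1 with hMdef
  have hM : ∀ n : ℕ, ‖T ^ n‖ ≤ M := fun n => le_trans (hM₀ n) (le_max_left _ _)
  have hM1 : 1 ≤ M := le_max_right _ _
  have hK := isCompact_sub_of_essSpectrum A hA.1.isSelfAdjoint t hess.le
  set K : H →L[ℂ] H := A - (t : ℂ) • (1 : H →L[ℂ] H) with hKdef
  obtain ⟨f, hf⟩ := exists_orthonormal_seq hdim
  set c : ℕ → ℝ := fun i => (inner ℂ (f i) (A (f i))).re with hc
  have hKz : ∀ z : H, (inner ℂ z (A z)).re - t * ‖z‖ ^ 2 = (inner ℂ z (K z)).re := by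
    intro z
    rw [hKdef]
    simp only [_root_.sub_apply, _root_.smul_apply,
      one_apply_eq_self, inner_sub_right, inner_smul_right, Complex.sub_re]
    rw [inner_self_real, ← Complex.ofReal_mul, Complex.ofReal_re]
  have main : ∀ ε : ℝ, 0 < ε → |(1 - t) * t| ≤ (|1 - t| + 1) * (ε * (M + 2)) := by
    intro ε hε
    obtain ⟨U, hU⟩ := compact_estimate K hK M (by linarith) ε hε
    have h1 : Tendsto (fun i => ∑ u ∈ U, L.real (innSeq T M hM u (f i))) atTop (𝓝 0) := by
      have := tendsto_finsetSum U (fun u _ => tendsto_innSeq L T M hM f hf u)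
      simpa using this
    have h2 : Tendsto (fun i => ∑ u ∈ U, innSeq T M hM u (f i) 0) atTop (𝓝 0) := by
      have := tendsto_finsetSum U (fun u _ => tendsto_innSeq_zero T M hM f hf u)
      simpa using this
    have hev1 := h1.eventually_lt_const (show (0 : ℝ) < ε ^ 2 by positivity)
    have hev2 := h2.eventually_lt_const (show (0 : ℝ) < ε ^ 2 by positivity)
    obtain ⟨i, hi1, hi2⟩ := (hev1.and hev2).exists
    have hfn : ‖f i‖ = 1 := hf.1 i
    set E : ℕ →ᵇ ℝ := BoundedContinuousFunction.const ℕ (c i) - t • normSeq T M hM (f i) with hE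
    set V : ℕ →ᵇ ℝ := BoundedContinuousFunction.const ℕ (ε * (M + 1)) +
      (1 / ε) • ∑ u ∈ U, innSeq T M hM u (f i) with hV
    have hEn : ∀ n, |E n| ≤ V n := by
      intro n
      have e1 : E n = (inner ℂ ((T ^ n) (f i)) (K ((T ^ n) (f i)))).re := by
        rw [← hKz, quad_pow hA hM n (f i), hE]
        rfl
      have e2 : V n = ε * (M + 1) + (1 / ε) * ∑ u ∈ U, ‖inner ℂ u ((T ^ n) (f i))‖ ^ 2 := by
        rw [hV]
        simp [innSeq_apply]
      rw [e1, e2]
      refine le_trans (Complex.abs_re_le_norm _) (hU _ ?_)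
      have := norm_pow_le hM n (f i)
      rwa [hfn, mul_one] at this
    have hVr : L.real V ≤ ε * (M + 2) := by
      rw [hV, map_add, map_smul, real_const, map_sum, smul_eq_mul]
      have : (1 / ε) * ∑ u ∈ U, L.real (innSeq T M hM u (f i)) ≤ (1 / ε) * ε ^ 2 := by gcongr
      have e3 : (1 / ε) * ε ^ 2 = ε := by field_simp
      rw [e3] at this
      linarith
    have hV0 : V 0 ≤ ε * (M + 2) := by
      have e2 : V 0 = ε * (M + 1) + (1 / ε) * ∑ u ∈ U, innSeq T M hM u (f i) 0 := by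
        rw [hV]
        simp
      rw [e2]
      have : (1 / ε) * ∑ u ∈ U, innSeq T M hM u (f i) 0 ≤ (1 / ε) * ε ^ 2 := by gcongr
      have e3 : (1 / ε) * ε ^ 2 = ε := by field_simp
      rw [e3] at this
      linarith
    have hLE : L.real E = (1 - t) * c i := by
      rw [hE, map_sub, map_smul, real_const, ← quad_eq hA hM (f i), smul_eq_mul]
      show c i - t * c i = (1 - t) * c i
      ring
    have h3 : |(1 - t) * c i| ≤ ε * (M + 2) := by
      rw [← hLE]
      refine le_trans ?_ hVr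
      rw [abs_le]
      constructor
      · rw [← map_neg]
        apply real_mono
        intro n
        exact (abs_le.mp (hEn n)).1
      · apply real_mono
        intro n
        exact (abs_le.mp (hEn n)).2
    have h4 : |c i - t| ≤ ε * (M + 2) := by
      refine le_trans (le_of_eq ?_) (le_trans (hEn 0) hV0)
      congr 1
      rw [hE]
      show c i - t = c i - t * ‖(T ^ 0) (f i)‖ ^ 2
      rw [pow_zero, one_apply_eq_self, hfn]
      ring
    calc |(1 - t) * t| = |(1 - t) * c i - (1 - t) * (c i - t)| := by congr 1; ring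
      _ ≤ |(1 - t) * c i| + |(1 - t) * (c i - t)| := abs_sub _ _
      _ ≤ ε * (M + 2) + |1 - t| * (ε * (M + 2)) := by
          rw [abs_mul (1 - t) (c i - t)]
          gcongr
      _ = (|1 - t| + 1) * (ε * (M + 2)) := by ring
  have hzero : |(1 - t) * t| ≤ 0 := by
    apply le_of_forall_pos_le_add
    intro δ hδ
    have hpos : 0 < (|1 - t| + 1) * (M + 2) := by positivity
    have h5 := main (δ / ((|1 - t| + 1) * (M + 2))) (by positivity)
    have h6 : (|1 - t| + 1) * (δ / ((|1 - t| + 1) * (M + 2)) * (M + 2)) = δ := by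
      field_simp
    rw [h6] at h5
    linarith
  have h7 : (1 - t) * t = 0 := abs_nonpos_iff.mp hzero
  rcases mul_eq_zero.mp h7 with h | h
  · linarith
  · exact absurd h ht.ne'

end Pool.Agent.Results.MP_fdf6c3_an.EssentialOne
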